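import Pool.Agent.Y460.Kam.Stmt2

/-!
# Kameko's squaring operation on coinvariants in degree `0`

For every `d ≥ 4` the map `𝔽₂ ⊗_{GL_d} PH_0 → 𝔽₂ ⊗_{GL_d} PH_d` is not injective; so the
equivalence of the question, read with the degree `n = 0` allowed, fails at `d = 4`.
-/

set_option autoImplicit false

namespace Pool.Agent.Results.MP_ca28bb_gt.KamekoDegreeZero

open Pool.Agent.Y460.Kam

theorem result :
    (∀ d : ℕ, 4 ≤ d → ¬ S.KamekoInjective d 0) ∧
      ¬ ∀ d : ℕ, 0 < d → ((∀ n : ℕ, S.KamekoInjective d n) ↔ d ≤ 4) := by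
  refine ⟨fun d hd h => not_inj_zero hd ((S.inj_iff _ _).mp h), fun h => ?_⟩
  exact not_inj_zero (le_refl 4) ((S.inj_iff _ _).mp (((h 4 (by norm_num)).mpr (le_refl 4)) 0))

end Pool.Agent.Results.MP_ca28bb_gt.KamekoDegreeZero
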