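import Pool.Agent.Y460.Kam.Stmt2

/-!
# Kameko's squaring operation on coinvariants is not injective for `d ≥ 5`

For every `d ≥ 5` and every `j ≥ d`, the map
`𝔽₂ ⊗_{GL_d} PH_n → 𝔽₂ ⊗_{GL_d} PH_(d+2n)` is not injective in degree `n = 2 ^ j - 1`.
-/

set_option autoImplicit false

namespace Pool.Agent.Results.MP_ca28bb_gt.KamekoNotInjective

open Pool.Agent.Y460.Kam

theorem result (d : ℕ) (hd : 5 ≤ d) (j : ℕ) (hj : d ≤ j) : ¬ S.KamekoInjective d (2 ^ j - 1) :=
  fun h => not_inj_pow hd hj ((S.inj_iff _ _).mp h)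

end Pool.Agent.Results.MP_ca28bb_gt.KamekoNotInjective
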